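import Pool.Agent.Y165.BC.Stm

set_option autoImplicit false

/-!
Block carries and binomial coefficients.
-/

open Finset

namespace Pool.Agent.Y165.BC

theorem cc_le {q L m j K t : ℕ} (hq : q.Prime) (hL : 1 ≤ L) (hj : j < m) :
    cc (q ^ L) m j K t ≤ ((m * t).choose (j * t)).factorization q := by
  have e : m * t = (m - j) * t + j * t := by
    rw [← Nat.add_mul]
    congr 1
    omega
  have hb : Nat.log q ((m - j) * t + j * t) <
      Nat.log q ((m - j) * t + j * t) + 1 + (L * K + 1) := by omega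
  rw [e, Nat.factorization_choose' hq hb]
  unfold cc
  refine Finset.card_le_card_of_injOn (fun i => L * (i + 1)) ?_ ?_
  · intro i hi
    rw [Finset.mem_coe, Finset.mem_filter, Finset.mem_range] at hi
    rw [Finset.mem_coe, Finset.mem_filter, Finset.mem_Ico]
    have h1 : L * (i + 1) ≤ L * K := Nat.mul_le_mul_left L hi.1
    have h2 : 1 ≤ L * (i + 1) := Nat.mul_pos hL (Nat.succ_pos i)
    refine ⟨⟨h2, ?_⟩, ?_⟩
    · show L * (i + 1) < _
      omega
    have h3 := hi.2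
    rw [← pow_mul] at h3
    exact h3
  · intro i _ i' _ h
    simp only at h
    have := Nat.eq_of_mul_eq_mul_left hL h
    omega

theorem thirteen (K : ℕ) : (13 / 16 : ℝ) ^ K ≤ Real.exp (-(K / 5 : ℝ)) := by
  have h1 : Real.exp (1 / 5) ≤ 16 / 13 := by
    by_contra h
    rw [not_le] at h
    have h2 : (16 / 13 : ℝ) ^ 5 < Real.exp (1 / 5) ^ 5 :=
      pow_lt_pow_left₀ h (by norm_num) (by norm_num)
    rw [← Real.exp_nat_mul] at h2
    have h3 : ((5 : ℕ) : ℝ) * (1 / 5) = 1 := by norm_num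
    rw [h3] at h2
    have h4 := Real.exp_one_lt_d9
    norm_num at h2
    linarith
  have h2 : (13 / 16 : ℝ) ≤ Real.exp (-(1 / 5)) := by
    rw [Real.exp_neg]
    calc (13 / 16 : ℝ) = (16 / 13 : ℝ)⁻¹ := by norm_num
      _ ≤ (Real.exp (1 / 5))⁻¹ := inv_anti₀ (Real.exp_pos _) h1
  calc (13 / 16 : ℝ) ^ K ≤ Real.exp (-(1 / 5)) ^ K := by gcongr
    _ = Real.exp (-(K / 5 : ℝ)) := by
      rw [← Real.exp_nat_mul]
      congr 1
      ring

/-- few integers `t ≤ x` have a binomial coefficient `C(m t, j t)` with few factors `q` -/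
theorem few_bad (hW : WGT) {q L m j a : ℕ} (hq : q.Prime) (hL : 1 ≤ L) (hj1 : 1 ≤ j) (hj : j < m)
    (hR : 36 * m ≤ q ^ L) (x : ℕ) (hx : 1 ≤ x) (T : Finset ℕ)
    (hT : ∀ t ∈ T, t ≤ x ∧ ((m * t).choose (j * t)).factorization q < a) :
    (T.card : ℝ) ≤ 2 ^ a * (q ^ L : ℕ) * (x : ℝ) ^ (1 - 1 / (5 * Real.log (q ^ L : ℕ))) := by
  set R : ℕ := q ^ L with hRdef
  have hR2 : 2 ≤ R := by omega
  have hR1 : (1 : ℝ) < R := by exact_mod_cast (by omega : 1 < R)
  have hR0 : (0 : ℝ) < R := by linarith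
  have hlog : 0 < Real.log R := Real.log_pos hR1
  have hx0 : (0 : ℝ) < x := by exact_mod_cast hx
  set K : ℕ := Nat.log R x + 1 with hK
  have h1 : x < R ^ K := Nat.lt_pow_succ_log_self (by omega) x
  have h2 : R ^ (Nat.log R x) ≤ x := Nat.pow_log_le_self R (by omega)
  have hsub : T ⊆ (range (R ^ K)).filter fun t => cc R m j K t < a := by
    intro t ht
    obtain ⟨h3, h4⟩ := hT t ht
    rw [mem_filter, mem_range]
    exact ⟨lt_of_le_of_lt h3 h1, lt_of_le_of_lt (cc_le hq hL hj) h4⟩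
  have h3 : T.card * 16 ^ K ≤ 2 ^ a * (13 * R) ^ K :=
    (Nat.mul_le_mul_right _ (card_le_card hsub)).trans (hW R m j K a hj1 hj hR)
  have h4 : (T.card : ℝ) * 16 ^ K ≤ 2 ^ a * (13 * (R : ℝ)) ^ K := by exact_mod_cast h3
  have h5 : (T.card : ℝ) ≤ 2 ^ a * ((13 / 16 : ℝ) ^ K * (R : ℝ) ^ K) := by
    have h6 : (2 : ℝ) ^ a * (13 * (R : ℝ)) ^ K =
        (2 ^ a * ((13 / 16 : ℝ) ^ K * (R : ℝ) ^ K)) * 16 ^ K := by
      rw [mul_pow, div_pow]
      field_simp
    rw [h6] at h4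
    exact le_of_mul_le_mul_right h4 (by positivity)
  have h7 : (R : ℝ) ^ K ≤ R * x := by
    rw [hK, pow_succ, mul_comm]
    have : (R : ℝ) ^ (Nat.log R x) ≤ x := by exact_mod_cast h2
    gcongr
  have h8 : (13 / 16 : ℝ) ^ K ≤ (x : ℝ) ^ (-(1 / (5 * Real.log R))) := by
    refine (thirteen K).trans ?_
    rw [Real.rpow_def_of_pos hx0]
    apply Real.exp_le_exp.2
    have h9 : Real.log x ≤ K * Real.log R := by
      rw [← Real.log_pow]
      apply Real.log_le_log hx0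
      exact_mod_cast h1.le
    rw [mul_neg]
    apply neg_le_neg
    calc Real.log x * (1 / (5 * Real.log R)) ≤ (K * Real.log R) * (1 / (5 * Real.log R)) := by
          gcongr
      _ = K / 5 := by field_simp
  calc (T.card : ℝ) ≤ 2 ^ a * ((13 / 16 : ℝ) ^ K * (R : ℝ) ^ K) := h5
    _ ≤ 2 ^ a * ((x : ℝ) ^ (-(1 / (5 * Real.log R))) * (R * x)) := by gcongr
    _ = 2 ^ a * R * (x : ℝ) ^ (1 - 1 / (5 * Real.log R)) := by
      rw [sub_eq_add_neg, Real.rpow_add hx0, Real.rpow_one]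
      ring

end Pool.Agent.Y165.BC
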