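import Mathlib

set_option autoImplicit false

/-!
Many integers `m p ≤ x` with `m ≤ exp (√(log x) / 10)`.
-/

open Finset

namespace Pool.Agent.Y165.BC

theorem harm (k : ℕ) : Real.log ((k : ℝ) + 2) - Real.log 2 ≤ ∑ i ∈ range k, 1 / ((i : ℝ) + 2) := by
  induction k with
  | zero => simp
  | succ k ih =>
    rw [sum_range_succ]
    have h0 : (0 : ℝ) < (k : ℝ) + 2 := by positivity
    have h1 : Real.log (((k + 1 : ℕ) : ℝ) + 2) - Real.log ((k : ℝ) + 2) ≤ 1 / ((k : ℝ) + 2) := by
      rw [← Real.log_div (by positivity) (by positivity)]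
      have h2 := Real.log_le_sub_one_of_pos
        (show (0 : ℝ) < (((k + 1 : ℕ) : ℝ) + 2) / ((k : ℝ) + 2) by positivity)
      have h3 : (((k + 1 : ℕ) : ℝ) + 2) / ((k : ℝ) + 2) - 1 = 1 / ((k : ℝ) + 2) := by
        push_cast
        field_simp
        ring
      linarith
    linarith

theorem pi_lower (M : ℕ) (hM : 200 ≤ M) :
    (M : ℝ) / 2 ≤ Nat.primeCounting M * Real.log M := by
  have hM' : (200 : ℝ) ≤ M := by exact_mod_cast hM
  have h1 : (M : ℝ) * Real.log 2 - Real.log (M + 1) ≤ Nat.primeCounting M * Real.log M :=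
    (Chebyshev.psi_ge M).trans (Chebyshev.psi_le_primeCounting_mul_log M)
  have h2 : (0.693 : ℝ) ≤ Real.log 2 := by linarith [Real.log_two_gt_d9]
  have h3 : Real.log ((M : ℝ) + 1) ≤ 0.19 * M := by
    have e1 : Real.log ((M : ℝ) + 1) = 2 * Real.log (Real.sqrt ((M : ℝ) + 1)) := by
      rw [Real.log_sqrt (by linarith)]
      ring
    have e2 := Real.log_le_sub_one_of_pos (Real.sqrt_pos.2 (by linarith : (0 : ℝ) < (M : ℝ) + 1))
    have e3 := Real.sq_sqrt (by linarith : (0 : ℝ) ≤ (M : ℝ) + 1)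
    have e4 := sq_nonneg (Real.sqrt ((M : ℝ) + 1) - 12)
    rw [e1]
    nlinarith
  nlinarith

/-- many primes `m < p ≤ x / m` -/
theorem primes_many {x m : ℕ} {w : ℝ} (hx : 2 ≤ x) (hw : w * w = Real.log x) (hw72 : 72 ≤ w)
    (hm : 2 ≤ m) (hmw : (m : ℝ) ≤ Real.exp (w / 10)) :
    (x : ℝ) / (8 * m * (w * w)) ≤
      (((Finset.Ioc 0 x).filter fun p => p.Prime ∧ m < p ∧ m * p ≤ x).card : ℝ) := by
  have hx0 : (0 : ℝ) < x := by exact_mod_cast (by omega : 0 < x)
  have hm0 : (0 : ℝ) < m := by exact_mod_cast (by omega : 0 < m)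
  have hm2 : (2 : ℝ) ≤ m := by exact_mod_cast hm
  have hxe : (x : ℝ) = Real.exp (w * w) := by rw [hw, Real.exp_log hx0]
  have hw0 : 0 < w := by linarith
  -- `m * m * 400 ≤ x / (8 w w)`
  have hbig : (m : ℝ) * m * (12 * (w * w)) ≤ x := by
    have h1 : (m : ℝ) * m ≤ Real.exp (w / 5) := by
      calc (m : ℝ) * m ≤ Real.exp (w / 10) * Real.exp (w / 10) := by gcongr
        _ = Real.exp (w / 5) := by rw [← Real.exp_add]; congr 1; ring
    have h2 : 12 * (w * w) ≤ Real.exp (5 * w) := by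
      have := Real.quadratic_le_exp_of_nonneg (x := 5 * w) (by positivity)
      nlinarith
    calc (m : ℝ) * m * (12 * (w * w)) ≤ Real.exp (w / 5) * Real.exp (5 * w) := by gcongr
      _ = Real.exp (w / 5 + 5 * w) := by rw [Real.exp_add]
      _ ≤ Real.exp (w * w) := by
        apply Real.exp_le_exp.2
        nlinarith
      _ = x := hxe.symm
  have hww : (5000 : ℝ) ≤ w * w := by nlinarith
  set N : ℕ := x / m with hN
  have hNle : (N : ℝ) ≤ (x : ℝ) / m := Nat.cast_div_le
  have hNge : (x : ℝ) / m - 1 < N := by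
    have := Nat.lt_div_mul_add (a := x) (show 0 < m by omega)
    have h2 : (x : ℝ) < N * m + m := by exact_mod_cast this
    have h3 : (x : ℝ) / m < N + 1 := by
      rw [div_lt_iff₀ hm0]
      linarith
    linarith
  have hxm : (m : ℝ) * (12 * (w * w)) ≤ (x : ℝ) / m := by
    rw [le_div_iff₀ hm0]
    linarith
  have hN200 : 200 ≤ N := by
    have h1 : (200 : ℝ) < N := by nlinarith
    exact_mod_cast h1.le
  have hNx : N ≤ x := Nat.div_le_self x m
  have hNhalf : (x : ℝ) / (2 * m) ≤ N := by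
    have h1 : (x : ℝ) / (2 * m) = (x : ℝ) / m / 2 := by field_simp
    rw [h1]
    nlinarith
  have h1 := pi_lower N hN200
  have hN0 : (0 : ℝ) < N := by linarith [show (200 : ℝ) ≤ N by exact_mod_cast hN200]
  have h2 : Real.log N ≤ w * w := by
    rw [hw]
    exact Real.log_le_log hN0 (by exact_mod_cast hNx)
  have h3 : (N : ℝ) / 2 ≤ Nat.primeCounting N * (w * w) :=
    h1.trans (mul_le_mul_of_nonneg_left h2 (Nat.cast_nonneg _))
  -- compare the sets
  have h4 : Nat.primeCounting N ≤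
      ((Finset.Ioc 0 x).filter fun p => p.Prime ∧ m < p ∧ m * p ≤ x).card + m := by
    have e1 : Nat.primeCounting N = ((range (N + 1)).filter Nat.Prime).card := by
      rw [Nat.primeCounting, Nat.primeCounting', Nat.count_eq_card_filter_range]
    have e2 : (range (N + 1)).filter Nat.Prime ⊆
        ((Finset.Ioc 0 x).filter fun p => p.Prime ∧ m < p ∧ m * p ≤ x) ∪ Finset.Ioc 0 m := by
      intro p hp
      rw [mem_filter, mem_range] at hp
      rw [mem_union, mem_filter, mem_Ioc, mem_Ioc]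
      by_cases h : p ≤ m
      · exact Or.inr ⟨hp.2.pos, h⟩
      · left
        have h5 : p ≤ N := by omega
        have h6 : m * p ≤ x := (Nat.mul_le_mul_left m h5).trans (Nat.mul_div_le x m)
        exact ⟨⟨hp.2.pos, h5.trans hNx⟩, hp.2, not_le.1 h, h6⟩
    rw [e1]
    refine (card_le_card e2).trans ((card_union_le _ _).trans ?_)
    rw [Nat.card_Ioc]
    omega
  have h5 : (Nat.primeCounting N : ℝ) ≤
      (((Finset.Ioc 0 x).filter fun p => p.Prime ∧ m < p ∧ m * p ≤ x).card : ℝ) + m := by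
    exact_mod_cast h4
  set G : ℝ := (((Finset.Ioc 0 x).filter fun p => p.Prime ∧ m < p ∧ m * p ≤ x).card : ℝ) with hG
  have hww0 : 0 < w * w := by positivity
  have h6 : (x : ℝ) / (4 * m) ≤ (G + m) * (w * w) := by
    have e1 : (x : ℝ) / (4 * m) = (x : ℝ) / (2 * m) / 2 := by field_simp; ring
    rw [e1]
    calc (x : ℝ) / (2 * m) / 2 ≤ (N : ℝ) / 2 := by linarith
      _ ≤ Nat.primeCounting N * (w * w) := h3
      _ ≤ (G + m) * (w * w) := by gcongr
  have h7 : (m : ℝ) * (w * w) ≤ (x : ℝ) / (8 * m) := by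
    have e1 : (x : ℝ) / (8 * m) = (x : ℝ) / m / 8 := by field_simp
    rw [e1]
    linarith
  have h8 : (x : ℝ) / (8 * m) ≤ G * (w * w) := by
    have e1 : (x : ℝ) / (4 * m) = (x : ℝ) / (8 * m) + (x : ℝ) / (8 * m) := by field_simp; ring
    nlinarith
  have e2 : (x : ℝ) / (8 * m * (w * w)) = (x : ℝ) / (8 * m) / (w * w) := by field_simp
  rw [e2, div_le_iff₀ hww0]
  exact h8

end Pool.Agent.Y165.BC
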