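import Mathlib

set_option autoImplicit false

/-!
Carries forced by a block of maximal digits, and integers without such a block.
-/

open Finset

namespace Pool.Agent.Y165.BC

/-- one carry -/
theorem carry {Q S t m j : ℕ} (hS : 0 < S) (hSQ : m * S ≤ Q) (hj1 : 1 ≤ j) (hj : j < m)
    (ht : Q ≤ t % Q + S) : Q ≤ (j * t) % Q + ((m - j) * t) % Q := by
  have hQ0 : 0 < Q := lt_of_lt_of_le (Nat.mul_pos (by omega) hS) hSQ
  have hlt := Nat.mod_lt t hQ0
  obtain ⟨δ, hδ⟩ : ∃ δ, t % Q + δ = Q := ⟨Q - t % Q, by omega⟩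
  have hδ0 : 0 < δ := by omega
  have hδS : δ ≤ S := by omega
  have key : ∀ i : ℕ, 1 ≤ i → i < m → (i * t) % Q = Q - i * δ := by
    intro i hi1 him
    have h1 : i * δ < Q := by
      calc i * δ < m * δ := Nat.mul_lt_mul_of_pos_right him hδ0
        _ ≤ m * S := Nat.mul_le_mul_left m hδS
        _ ≤ Q := hSQ
    have h2 : 0 < i * δ := Nat.mul_pos hi1 hδ0
    have h3 : i * t + i * δ = Q * (i * (t / Q) + i) := by
      have h4 := Nat.div_add_mod t Q
      calc i * t + i * δ = i * (Q * (t / Q) + t % Q) + i * δ := by rw [h4]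
        _ = i * (Q * (t / Q)) + i * (t % Q + δ) := by ring
        _ = Q * (i * (t / Q) + i) := by rw [hδ]; ring
    have h5 : i * t = Q * (i * (t / Q) + i - 1) + (Q - i * δ) := by
      have h6 : 1 ≤ i * (t / Q) + i := by omega
      obtain ⟨w, hw⟩ : ∃ w, i * (t / Q) + i = w + 1 := ⟨i * (t / Q) + i - 1, by omega⟩
      rw [hw] at h3 ⊢
      rw [Nat.mul_add, Nat.mul_one] at h3
      rw [Nat.add_sub_cancel]
      omega
    rw [h5, Nat.mul_add_mod, Nat.mod_eq_of_lt (by omega)]
  rw [key j hj1 hj, key (m - j) (by omega) (by omega)]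
  have h7 : j * δ + (m - j) * δ = m * δ := by
    rw [← Nat.add_mul]
    congr 1
    omega
  have h8 : m * δ ≤ Q := (Nat.mul_le_mul_left m hδS).trans hSQ
  omega

/-- the block of digits of `t` with index `i` in base `B` is maximal -/
def Full (B t : ℕ) : Prop := ∃ i : ℕ, (t / B ^ i) % B = B - 1

theorem full_mod {q L t i k : ℕ} (hq : 1 < q)
    (h : (t / (q ^ L) ^ i) % q ^ L = q ^ L - 1) (hk1 : L * i ≤ k) (hk2 : k ≤ L * i + L) :
    q ^ k ≤ t % q ^ k + q ^ (L * i) := by
  obtain ⟨e, rfl⟩ := Nat.exists_eq_add_of_le hk1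
  have he : e ≤ L := by omega
  have hq0 : 0 < q := by omega
  rw [← pow_mul] at h
  have h1 : (t / q ^ (L * i)) % q ^ e = q ^ e - 1 := by
    have h2 : q ^ e ∣ q ^ L := pow_dvd_pow q he
    rw [← Nat.mod_mod_of_dvd (t / q ^ (L * i)) h2, h]
    obtain ⟨w, hw⟩ := h2
    have hw0 : 0 < w := by
      rcases Nat.eq_zero_or_pos w with h0 | h0
      · rw [h0, mul_zero] at hw
        have := Nat.pow_pos (n := L) hq0
        omega
      · exact h0
    have hqe : 0 < q ^ e := Nat.pow_pos hq0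
    obtain ⟨w', rfl⟩ : ∃ w', w = w' + 1 := ⟨w - 1, by omega⟩
    rw [hw, Nat.mul_add, Nat.mul_one, Nat.add_sub_assoc hqe, Nat.mul_add_mod,
      Nat.mod_eq_of_lt (by omega)]
  have h3 : t % q ^ (L * i + e) = t % q ^ (L * i) + q ^ (L * i) * ((t / q ^ (L * i)) % q ^ e) := by
    rw [pow_add, Nat.mod_mul]
  rw [h3, h1, pow_add]
  have hqe : 0 < q ^ e := Nat.pow_pos hq0
  have h4 : q ^ (L * i) * (q ^ e - 1) + q ^ (L * i) = q ^ (L * i) * q ^ e := by
    rw [← Nat.mul_succ]
    congr 1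
    omega
  calc q ^ (L * i) * q ^ e = q ^ (L * i) * (q ^ e - 1) + q ^ (L * i) := h4.symm
    _ ≤ t % q ^ (L * i) + q ^ (L * i) * (q ^ e - 1) + q ^ (L * i) :=
        Nat.add_le_add_right (Nat.le_add_left _ _) _

/-- a maximal block forces divisibility of all the binomial coefficients -/
theorem dvd_of_full {q m a l t : ℕ} (hq : q.Prime) (hm : m ≤ q ^ l) (hl : 1 ≤ l)
    (h : Full (q ^ (l + a)) t) {j : ℕ} (hj1 : 1 ≤ j) (hj : j < m) :
    a ≤ ((m * t).choose (j * t)).factorization q := by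
  obtain ⟨i, hi⟩ := h
  set L := l + a with hL
  have e : m * t = (m - j) * t + j * t := by
    rw [← Nat.add_mul]
    congr 1
    omega
  have hb : Nat.log q ((m - j) * t + j * t) <
      Nat.log q ((m - j) * t + j * t) + 1 + (L * i + L + 1) := by omega
  rw [e, Nat.factorization_choose' hq hb]
  have hsub : (Finset.Ioc (L * i + l) (L * i + L)) ⊆
      {k ∈ Finset.Ico 1 (Nat.log q ((m - j) * t + j * t) + 1 + (L * i + L + 1)) |
        q ^ k ≤ j * t % q ^ k + (m - j) * t % q ^ k} := by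
    intro k hk
    rw [Finset.mem_Ioc] at hk
    rw [Finset.mem_filter, Finset.mem_Ico]
    refine ⟨⟨by omega, by omega⟩, ?_⟩
    refine carry (S := q ^ (L * i)) (Nat.pow_pos hq.pos) ?_ hj1 hj
      (full_mod hq.one_lt hi (by omega) (by omega))
    calc m * q ^ (L * i) ≤ q ^ l * q ^ (L * i) := Nat.mul_le_mul_right _ hm
      _ = q ^ (L * i + l) := by rw [← pow_add]; congr 1; omega
      _ ≤ q ^ k := Nat.pow_le_pow_right hq.pos (by omega)
  have hc := Finset.card_le_card hsub
  rw [Nat.card_Ioc] at hc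
  omega

/-- the integers below `B ^ k` without maximal digit -/
theorem card_notFull (B : ℕ) (hB : 2 ≤ B) (k : ℕ) (T : Finset ℕ)
    (hT : ∀ t ∈ T, t < B ^ k ∧ ¬ Full B t) : T.card ≤ (B - 1) ^ k := by
  induction k generalizing T with
  | zero =>
    have h1 : T ⊆ {0} := by
      intro t ht
      have := (hT t ht).1
      rw [Finset.mem_singleton]
      simpa using this
    simpa using Finset.card_le_card h1
  | succ k ih =>
    have h1 : T.card ≤ ((Finset.range (B - 1)) ×ˢ (T.image fun t => t / B)).card := by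
      refine Finset.card_le_card_of_injOn (fun t => (t % B, t / B)) ?_ ?_
      · intro t ht
        rw [Finset.mem_coe] at ht
        rw [Finset.mem_coe, Finset.mem_product, Finset.mem_range]
        refine ⟨?_, Finset.mem_image_of_mem _ ht⟩
        have h2 := Nat.mod_lt t (show 0 < B by omega)
        have h3 : t % B ≠ B - 1 := by
          intro h
          exact (hT t ht).2 ⟨0, by simpa using h⟩
        show t % B < B - 1
        omega
      · intro s _ t _ h
        simp only [Prod.mk.injEq] at h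
        rw [← Nat.div_add_mod s B, ← Nat.div_add_mod t B, h.1, h.2]
    rw [Finset.card_product, Finset.card_range] at h1
    have h2 := ih (T.image fun t => t / B) ?_
    · calc T.card ≤ (B - 1) * (T.image fun t => t / B).card := h1
        _ ≤ (B - 1) * (B - 1) ^ k := Nat.mul_le_mul_left _ h2
        _ = (B - 1) ^ (k + 1) := by ring
    · intro s hs
      obtain ⟨t, ht, rfl⟩ := Finset.mem_image.1 hs
      obtain ⟨h3, h4⟩ := hT t ht
      refine ⟨?_, ?_⟩
      · rw [Nat.div_lt_iff_lt_mul (by omega)]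
        rwa [pow_succ] at h3
      · rintro ⟨i, hi⟩
        apply h4
        refine ⟨i + 1, ?_⟩
        rw [pow_succ', ← Nat.div_div_eq_div_mul]
        exact hi

/-- power saving, explicit -/
theorem notFull_small (B M : ℕ) (hB : 2 ≤ B) (hBM : B ≤ M) (x : ℕ) (hx : 1 ≤ x) (T : Finset ℕ)
    (hT : ∀ t ∈ T, t ≤ x ∧ ¬ Full B t) :
    (T.card : ℝ) ≤ M * (x : ℝ) ^ (1 - 1 / (M * Real.log M)) := by
  have hB1 : (1 : ℝ) < B := by exact_mod_cast (by omega : 1 < B)
  have hB0 : (0 : ℝ) < B := by linarith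
  have hBM' : (B : ℝ) ≤ M := by exact_mod_cast hBM
  have hx1 : (1 : ℝ) ≤ x := by exact_mod_cast hx
  have hBm : (1 : ℝ) ≤ ((B - 1 : ℕ) : ℝ) := by exact_mod_cast (by omega : 1 ≤ B - 1)
  have hBm' : ((B - 1 : ℕ) : ℝ) = B - 1 := by
    rw [Nat.cast_sub (by omega)]
    simp
  have hBlt : ((B - 1 : ℕ) : ℝ) < B := by exact_mod_cast (by omega : B - 1 < B)
  have hlog : 0 < Real.log B := Real.log_pos hB1
  set γ : ℝ := Real.log ((B - 1 : ℕ) : ℝ) / Real.log B with hγ
  have hγ0 : 0 ≤ γ := div_nonneg (Real.log_nonneg hBm) hlog.le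
  have hγ1 : γ ≤ 1 - 1 / (M * Real.log M) := by
    have h1 : Real.log ((B - 1 : ℕ) : ℝ) ≤ Real.log B - 1 / B := by
      have h2 : ((B - 1 : ℕ) : ℝ) = B * (1 - 1 / B) := by
        rw [hBm']
        field_simp
      have h3 : (0 : ℝ) < 1 - 1 / B := by
        rw [sub_pos, div_lt_one hB0]
        exact hB1
      rw [h2, Real.log_mul hB0.ne' h3.ne']
      have := Real.log_le_sub_one_of_pos h3
      linarith
    have h4 : γ ≤ (Real.log B - 1 / B) / Real.log B := div_le_div_of_nonneg_right h1 hlog.le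
    have h5 : (Real.log B - 1 / B) / Real.log B = 1 - 1 / (B * Real.log B) := by
      field_simp
    have h6 : 1 / ((M : ℝ) * Real.log M) ≤ 1 / (B * Real.log B) := by
      apply one_div_le_one_div_of_le (by positivity)
      have h7 : Real.log B ≤ Real.log M := Real.log_le_log hB0 hBM'
      gcongr
    linarith
  have hpow : (B : ℝ) ^ γ = ((B - 1 : ℕ) : ℝ) := by
    rw [Real.rpow_def_of_pos hB0, hγ, mul_div_cancel₀ _ hlog.ne', Real.exp_log (by linarith)]
  have h1 : x < B ^ (Nat.log B x + 1) := Nat.lt_pow_succ_log_self (by omega) x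
  have h2 : B ^ (Nat.log B x) ≤ x := Nat.pow_log_le_self B (by omega)
  have h3 := card_notFull B hB (Nat.log B x + 1) T
    (fun t ht => ⟨lt_of_le_of_lt (hT t ht).1 h1, (hT t ht).2⟩)
  have h4 : (T.card : ℝ) ≤ ((B - 1 : ℕ) : ℝ) ^ (Nat.log B x + 1) := by exact_mod_cast h3
  refine h4.trans ?_
  rw [pow_succ, mul_comm]
  have h5 : ((B - 1 : ℕ) : ℝ) ^ (Nat.log B x) ≤ (x : ℝ) ^ γ := by
    rw [← hpow, ← Real.rpow_natCast, ← Real.rpow_mul hB0.le, mul_comm, Real.rpow_mul hB0.le,
      Real.rpow_natCast]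
    refine Real.rpow_le_rpow (by positivity) ?_ hγ0
    exact_mod_cast h2
  have h6 : (x : ℝ) ^ γ ≤ (x : ℝ) ^ (1 - 1 / (M * Real.log M)) :=
    Real.rpow_le_rpow_of_exponent_le hx1 hγ1
  have h7 : ((B - 1 : ℕ) : ℝ) ≤ M := by linarith
  exact mul_le_mul h7 (h5.trans h6) (by positivity) (by linarith)

end Pool.Agent.Y165.BC
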