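import Mathlib

set_option autoImplicit false

/-!
Statements of the tasks of project BC (MP_35d543_nt, helper165).
-/

namespace Pool.Agent.Y165.BC

open Finset

/-- BLK: one block of digits forces a carry with proportion at least `3 / 8` -/
def BLK : Prop := ∀ Q R m j t0 : ℕ, 0 < Q → t0 < Q → 1 ≤ j → j < m → 36 * m ≤ R →
  3 * R ≤ 8 * ((range R).filter fun u =>
    Q * R ≤ (j * (t0 + Q * u)) % (Q * R) + ((m - j) * (t0 + Q * u)) % (Q * R)).card

/-- number of block carries -/
def cc (R m j K t : ℕ) : ℕ := ((range K).filter fun i =>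
  R ^ (i + 1) ≤ (j * t) % R ^ (i + 1) + ((m - j) * t) % R ^ (i + 1)).card

/-- WGT: few integers have few block carries -/
def WGT : Prop := ∀ R m j K a : ℕ, 1 ≤ j → j < m → 36 * m ≤ R →
  ((range (R ^ K)).filter fun t => cc R m j K t < a).card * 16 ^ K ≤ 2 ^ a * (13 * R) ^ K

end Pool.Agent.Y165.BC
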